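import Pool.Agent.W680.WH.Stm

set_option autoImplicit false

/-! WHH-REC: from the base vector to an operator which is a multiple of an isometry. -/

open scoped ComplexConjugate InnerProductSpace
open ContinuousLinearMap Filter

namespace Pool.Agent.W196.WHREC

open Pool.Agent.W680.WH

/-! ### algebra -/

section alg
variable {A : Type*} [Ring A] [Algebra ℂ A]

theorem alg_D (z y : A) (h : y * z - z * y = (2 : ℂ) • ((z - y) * (z - y))) :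
    y * z = (2 / 3 : ℂ) • (z * z) - (1 / 3 : ℂ) • (z * y) + (2 / 3 : ℂ) • (y * y) := by
  have h1 : (z - y) * (z - y) = z * z - z * y - y * z + y * y := by noncomm_ring
  rw [h1] at h
  have h2 : (3 : ℂ) • (y * z) = (2 : ℂ) • (z * z) - z * y + (2 : ℂ) • (y * y) := by
    have h3 : y * z = z * y + (2 : ℂ) • (z * z - z * y - y * z + y * y) := by
      rw [← h]; abel
    have h4 : (3 : ℂ) • (y * z) = y * z + (2 : ℂ) • (y * z) := by module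
    rw [h4]
    nth_rewrite 1 [h3]
    module
  have h5 : y * z = (1 / 3 : ℂ) • ((3 : ℂ) • (y * z)) := by module
  rw [h5, h2]
  module

theorem alg1 (z y : A) (ρ : ℂ) (h : y * z - z * y = (2 : ℂ) • ((z - y) * (z - y))) :
    ((1 + ρ • z) - (2 * ρ) • (z - y)) * (z - y) = (z - y) * (1 + ρ • z) := by
  have hD := alg_D z y h
  simp only [mul_add, add_mul, mul_sub, sub_mul, smul_mul_assoc, mul_smul_comm, one_mul, mul_one,
    smul_add, smul_sub, hD]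
  module

theorem alg2 (z y : A) (ρ : ℂ) (h : y * z - z * y = (2 : ℂ) • ((z - y) * (z - y))) :
    ((1 + ρ • z) - (2 * ρ) • (z - y)) * (1 + ρ • y) =
      ((1 + ρ • y) - (2 * ρ) • (z - y)) * (1 + ρ • z) := by
  have hD := alg_D z y h
  simp only [mul_add, add_mul, mul_sub, sub_mul, smul_mul_assoc, mul_smul_comm, one_mul, mul_one,
    smul_add, smul_sub, hD]
  module

theorem alg3 (z y : A) (ρ : ℂ) (h : y * z - z * y = (2 : ℂ) • ((z - y) * (z - y))) :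
    (z - y) * (z + ρ • (1 : A)) = ((z + ρ • (1 : A)) - (2 : ℂ) • (z - y)) * (z - y) := by
  have hD := alg_D z y h
  simp only [mul_add, add_mul, mul_sub, sub_mul, smul_mul_assoc, mul_smul_comm, one_mul, mul_one,
    smul_add, smul_sub, hD]
  module

theorem alg4 (z y : A) (ρ : ℂ) (h : y * z - z * y = (2 : ℂ) • ((z - y) * (z - y))) :
    ((z + ρ • (1 : A)) - (2 : ℂ) • (z - y)) * (1 + ρ • y) =
      (1 + ρ • y) * (z + ρ • (1 : A)) - (2 : ℂ) • ((z - y) * (1 + ρ • z)) := by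
  have hD := alg_D z y h
  simp only [mul_add, add_mul, mul_sub, sub_mul, smul_mul_assoc, mul_smul_comm, one_mul, mul_one,
    smul_add, smul_sub, hD]
  module

theorem alg5 (z : A) (ρ : ℂ) :
    (1 + ρ • z) * (z + ρ • (1 : A)) = (z + ρ • (1 : A)) * (1 + ρ • z) := by
  simp only [mul_add, add_mul, smul_mul_assoc, mul_smul_comm, one_mul, mul_one, smul_add]
  module

theorem alg6 (z y : A) (ρ : ℂ) :
    (1 + ρ • y) * (z + ρ • (1 : A)) - (y + ρ • (1 : A)) * (1 + ρ • z) =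
      (1 - ρ ^ 2) • (z - y) := by
  simp only [mul_add, add_mul, smul_mul_assoc, mul_smul_comm, one_mul, mul_one, smul_add, smul_sub]
  module

end alg

/-! ### the recursion step for vectors -/

theorem mulv (A B : E →L[ℂ] E) (x : E) : (A * B) x = A (B x) := rfl

noncomputable def c1 (ρ : ℂ) : E →L[ℂ] E := 1 + ρ • Z
noncomputable def c2 (ρ : ℂ) : E →L[ℂ] E := 1 + ρ • Z2
noncomputable def s1 (ρ : ℂ) : E →L[ℂ] E := Z + ρ • (1 : E →L[ℂ] E)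
noncomputable def s2 (ρ : ℂ) : E →L[ℂ] E := Z2 + ρ • (1 : E →L[ℂ] E)

theorem step (hop : Z2 * Z - Z * Z2 = (2 : ℂ) • (Q * Q)) (ρ q q1 : ℂ) (h h1 : E) (hq : q ≠ 0)
    (hq1 : q1 * (1 + 2 * q) = q)
    (hQ : (1 - ρ ^ 2) • Q h = q • c2 ρ (s1 ρ h)) (hc : c1 ρ h1 = s1 ρ h) :
    (c1 ρ - (2 * ρ) • Q) ((1 - ρ ^ 2) • Q h1 - q1 • c2 ρ (s1 ρ h1)) = 0 := by
  have hQd : Q = Z - Z2 := rfl
  have hop' : Z2 * Z - Z * Z2 = (2 : ℂ) • ((Z - Z2) * (Z - Z2)) := hop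
  set x : E := s1 ρ h with hx
  have e1 : (c1 ρ - (2 * ρ) • Q) (Q h1) = Q x := by
    have := alg1 Z Z2 ρ hop'
    rw [← mulv, hQd]
    unfold c1
    rw [this, mulv]
    unfold c1 at hc
    rw [hc]
  have e2 : (c1 ρ - (2 * ρ) • Q) (c2 ρ (s1 ρ h1)) = c2 ρ (s1 ρ x) - (2 * ρ) • Q (s1 ρ x) := by
    have h2 := alg2 Z Z2 ρ hop'
    have h3 : c1 ρ (s1 ρ h1) = s1 ρ x := by
      have h5 := alg5 Z ρ
      have h6 : c1 ρ (s1 ρ h1) = s1 ρ (c1 ρ h1) := by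
        have := congrArg (fun T : E →L[ℂ] E => T h1) h5
        exact this
      rw [h6, hc]
    have h4 : (c1 ρ - (2 * ρ) • Q) (c2 ρ (s1 ρ h1)) =
        (c2 ρ - (2 * ρ) • Q) (c1 ρ (s1 ρ h1)) := by
      have := congrArg (fun T : E →L[ℂ] E => T (s1 ρ h1)) h2
      exact this
    rw [h4, h3]
    rfl
  have e3 : (1 - ρ ^ 2) • Q x = q • (c2 ρ (s1 ρ x) - (2 : ℂ) • Q (c1 ρ x)) := by
    have h3 : Q x = (s1 ρ - (2 : ℂ) • Q) (Q h) := by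
      have := congrArg (fun T : E →L[ℂ] E => T h) (alg3 Z Z2 ρ hop')
      exact this
    have h4 : (s1 ρ - (2 : ℂ) • Q) (c2 ρ x) = c2 ρ (s1 ρ x) - (2 : ℂ) • Q (c1 ρ x) := by
      have := congrArg (fun T : E →L[ℂ] E => T x) (alg4 Z Z2 ρ hop')
      exact this
    rw [h3, ← map_smul, hQ, map_smul, h4]
  have e4 : (1 - ρ ^ 2) • Q x = Q (c1 ρ x) - ρ • Q (s1 ρ x) := by
    have h5 : c1 ρ x = x + ρ • Z x := rfl
    have h6 : s1 ρ x = Z x + ρ • x := rfl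
    have h7 : (1 - ρ ^ 2) • x = c1 ρ x - ρ • s1 ρ x := by
      rw [h5, h6]
      module
    have h8 : Q ((1 - ρ ^ 2) • x) = (1 - ρ ^ 2) • Q x := map_smul Q _ _
    have h9 : Q (c1 ρ x - ρ • s1 ρ x) = Q (c1 ρ x) - ρ • Q (s1 ρ x) := by
      rw [map_sub, map_smul]
    rw [← h8, h7, h9]
  have e5 : (c1 ρ - (2 * ρ) • Q) ((1 - ρ ^ 2) • Q h1 - q1 • c2 ρ (s1 ρ h1)) =
      (1 - ρ ^ 2) • Q x - q1 • (c2 ρ (s1 ρ x) - (2 * ρ) • Q (s1 ρ x)) := by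
    rw [map_sub, map_smul, map_smul, e1, e2]
  rw [e5]
  generalize (1 - ρ ^ 2) • Q x = y at e3 e4 ⊢
  generalize c2 ρ (s1 ρ x) = d at e3 ⊢
  generalize Q (c1 ρ x) = a at e3 e4
  generalize Q (s1 ρ x) = b at e4 ⊢
  have f1 : q • d = y + (2 * q) • a := by rw [e3]; module
  have f2 : ρ • b = a - y := by rw [e4]; module
  have f3 : q • (y - q1 • (d - (2 * ρ) • b)) = 0 := by
    have f4 : q • (y - q1 • (d - (2 * ρ) • b)) = q • y - q1 • (q • d) + (2 * q * q1) • (ρ • b) := by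
      module
    rw [f4, f1, f2]
    have f5 : q • y - q1 • (y + (2 * q) • a) + (2 * q * q1) • (a - y) =
        (q - q1 * (1 + 2 * q)) • y := by module
    rw [f5, hq1, sub_self, zero_smul]
  exact (smul_eq_zero.1 f3).resolve_left hq


/-! ### injectivity -/

theorem co_bound (h1 : S_OM) (h2 : S_OPC) (f : E) (n : ℤ) : ‖co f n‖ ≤ ‖f‖ := by
  obtain ⟨-, -, -, -, -, -, hn, hs, -⟩ := h2
  have h3 : om n * ‖co f n‖ ^ 2 ≤ ∑' n, om n * ‖co f n‖ ^ 2 :=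
    (hs f).le_tsum n (fun j _ => by have := om_pos j; positivity)
  have h4 := h1.1 n
  rw [← hn f] at h3
  have h5 : ‖co f n‖ ^ 2 ≤ ‖f‖ ^ 2 := by nlinarith [sq_nonneg ‖co f n‖]
  exact le_of_sq_le_sq h5 (norm_nonneg _)

theorem K_inj (h1 : S_OM) (h2 : S_OPC) (r : ℝ) (hr0 : 0 ≤ r) (hr1 : r < 1) (e : E)
    (he : (c1 (r : ℂ) - (2 * (r : ℂ)) • Q) e = 0) : e = 0 := by
  have hb := co_bound h1 h2 e
  obtain ⟨-, hZ, -, hZ2, hadd, hsmul, -, -, hext, -⟩ := h2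
  have hK : ∀ n : ℤ, (4 * (n : ℂ) - 1) * co e n + (r : ℂ) * ((4 * (n : ℂ) - 5) * co e (n - 1)) = 0 := by
    intro n
    have hz : (4 * (n : ℂ) - 1) ≠ 0 := by
      have : ((4 * n - 1 : ℤ) : ℂ) ≠ 0 := by
        rw [Int.cast_ne_zero]; omega
      push_cast at this
      exact this
    have h3 : e + (r : ℂ) • Z e + (-(2 * (r : ℂ))) • (Z e + (-1 : ℂ) • Z2 e) = 0 := by
      have h4 : (c1 (r : ℂ) - (2 * (r : ℂ)) • Q) e =
          e + (r : ℂ) • Z e - (2 * (r : ℂ)) • (Z e - Z2 e) := rfl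
      rw [h4] at he
      rw [← he]; module
    have h5 : co (e + (r : ℂ) • Z e + (-(2 * (r : ℂ))) • (Z e + (-1 : ℂ) • Z2 e)) n = 0 := by
      rw [h3]; simp [co]
    rw [hadd, hadd, hsmul, hsmul, hadd, hsmul, hZ, hZ2] at h5
    field_simp at h5
    linear_combination h5
  have hneg : ∀ (k m : ℕ), (4 * (k : ℂ) + 1) * co e (-(k : ℤ)) =
      (-(r : ℂ)) ^ m * ((4 * ((k + m : ℕ) : ℂ) + 1) * co e (-((k + m : ℕ) : ℤ))) := by
    intro k m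
    induction m with
    | zero => simp
    | succ m ih =>
      have h3 := hK (-((k + m : ℕ) : ℤ))
      have h4 : -((k + m : ℕ) : ℤ) - 1 = -((k + (m + 1) : ℕ) : ℤ) := by push_cast; ring
      rw [h4] at h3
      rw [ih, pow_succ, mul_assoc]
      congr 1
      push_cast at h3 ⊢
      linear_combination (-1 : ℂ) * h3
  have hnz : ∀ k : ℕ, co e (-(k : ℤ)) = 0 := by
    intro k
    have hlim : Tendsto (fun m : ℕ => (m : ℝ) ^ 1 * r ^ m) atTop (nhds 0) :=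
      tendsto_pow_const_mul_const_pow_of_abs_lt_one 1 (by rw [abs_of_nonneg hr0]; exact hr1)
    have hlim2 : Tendsto (fun m : ℕ => r ^ m) atTop (nhds 0) :=
      tendsto_pow_atTop_nhds_zero_of_lt_one hr0 hr1
    have hlim3 : Tendsto (fun m : ℕ => (4 * ((m : ℝ) ^ 1 * r ^ m) + (4 * (k : ℝ) + 1) * r ^ m) * ‖e‖)
        atTop (nhds 0) := by
      have := ((hlim.const_mul 4).add (hlim2.const_mul (4 * (k : ℝ) + 1))).mul_const ‖e‖
      simpa using this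
    have hle : ∀ m : ℕ, ‖(4 * (k : ℂ) + 1) * co e (-(k : ℤ))‖ ≤
        (4 * ((m : ℝ) ^ 1 * r ^ m) + (4 * (k : ℝ) + 1) * r ^ m) * ‖e‖ := by
      intro m
      rw [hneg k m, norm_mul, norm_mul, norm_pow, norm_neg, Complex.norm_real,
        Real.norm_of_nonneg hr0]
      have h3 : ‖(4 * ((k + m : ℕ) : ℂ) + 1)‖ = 4 * ((k + m : ℕ) : ℝ) + 1 := by
        have h4 : (4 * ((k + m : ℕ) : ℂ) + 1) = ((4 * (k + m) + 1 : ℕ) : ℂ) := by push_cast; ring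
        rw [h4, Complex.norm_natCast]; push_cast; ring
      rw [h3]
      have h5 := hb (-((k + m : ℕ) : ℤ))
      have h6 : (0 : ℝ) ≤ r ^ m := pow_nonneg hr0 m
      have h7 : (0 : ℝ) ≤ 4 * ((k + m : ℕ) : ℝ) + 1 := by positivity
      calc r ^ m * ((4 * ((k + m : ℕ) : ℝ) + 1) * ‖co e (-((k + m : ℕ) : ℤ))‖)
          ≤ r ^ m * ((4 * ((k + m : ℕ) : ℝ) + 1) * ‖e‖) :=
            mul_le_mul_of_nonneg_left (mul_le_mul_of_nonneg_left h5 h7) h6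
        _ = _ := by push_cast; ring
    have h3 : ‖(4 * (k : ℂ) + 1) * co e (-(k : ℤ))‖ ≤ 0 := ge_of_tendsto' hlim3 hle
    have h4 : (4 * (k : ℂ) + 1) * co e (-(k : ℤ)) = 0 := norm_le_zero_iff.1 h3
    have h5 : (4 * (k : ℂ) + 1) ≠ 0 := by
      have : ((4 * k + 1 : ℕ) : ℂ) ≠ 0 := by
        rw [Nat.cast_ne_zero]; omega
      push_cast at this
      exact this
    exact (mul_eq_zero.1 h4).resolve_left h5
  have hpos : ∀ k : ℕ, co e (k : ℤ) = 0 := by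
    intro k
    induction k with
    | zero => simpa using hnz 0
    | succ k ih =>
      have h3 := hK ((k + 1 : ℕ) : ℤ)
      have h4 : ((k + 1 : ℕ) : ℤ) - 1 = (k : ℤ) := by push_cast; ring
      rw [h4, ih] at h3
      have hz : (4 * (((k + 1 : ℕ) : ℤ) : ℂ) - 1) ≠ 0 := by
        have : ((4 * ((k + 1 : ℕ) : ℤ) - 1 : ℤ) : ℂ) ≠ 0 := by
          rw [Int.cast_ne_zero]; omega
        push_cast at this ⊢
        exact this
      have h5 : (4 * (((k + 1 : ℕ) : ℤ) : ℂ) - 1) * co e ((k + 1 : ℕ) : ℤ) = 0 := by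
        linear_combination h3
      exact (mul_eq_zero.1 h5).resolve_left hz
  apply hext
  intro n
  have h0 : co (0 : E) n = 0 := by simp [co]
  rw [h0]
  obtain ⟨k, rfl | rfl⟩ := n.eq_nat_or_neg
  · exact hpos k
  · exact hnz k

/-! ### units -/

theorem unit_inj {S : E →L[ℂ] E} (hS : IsUnit S) {x y : E} (h : S x = S y) : x = y := by
  obtain ⟨u, rfl⟩ := hS
  have h1 : ∀ v : E, ((u⁻¹ : (E →L[ℂ] E)ˣ) : E →L[ℂ] E) ((u : E →L[ℂ] E) v) = v := by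
    intro v
    rw [← mulv, Units.inv_mul]; rfl
  rw [← h1 x, h, h1 y]

theorem unit_surj {S : E →L[ℂ] E} (hS : IsUnit S) (y : E) : ∃ x, S x = y := by
  obtain ⟨u, rfl⟩ := hS
  refine ⟨((u⁻¹ : (E →L[ℂ] E)ˣ) : E →L[ℂ] E) y, ?_⟩
  rw [← mulv, Units.mul_inv]; rfl

theorem units4 (hINV : S_INV) (r : ℝ) (hr0 : 0 ≤ r) (hr1 : r < 1) :
    IsUnit (c1 (r : ℂ)) ∧ IsUnit (c2 (r : ℂ)) ∧ IsUnit (s1 (r : ℂ)) ∧ IsUnit (s2 (r : ℂ)) := by
  have hn : ‖(-(r : ℂ))‖ < 1 := by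
    rw [norm_neg, Complex.norm_real, Real.norm_of_nonneg hr0]; exact hr1
  obtain ⟨h1, -, h2, -, h3, h4⟩ := hINV (-(r : ℂ)) hn
  have e1 : (1 : E →L[ℂ] E) - (-(r : ℂ)) • Z = c1 (r : ℂ) := by
    unfold c1; rw [neg_smul, sub_neg_eq_add]
  have e2 : (1 : E →L[ℂ] E) - (-(r : ℂ)) • Z2 = c2 (r : ℂ) := by
    unfold c2; rw [neg_smul, sub_neg_eq_add]
  have e3 : Z - (-(r : ℂ)) • (1 : E →L[ℂ] E) = s1 (r : ℂ) := by
    unfold s1; rw [neg_smul, sub_neg_eq_add]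
  have e4 : Z2 - (-(r : ℂ)) • (1 : E →L[ℂ] E) = s2 (r : ℂ) := by
    unfold s2; rw [neg_smul, sub_neg_eq_add]
  rw [e1] at h1
  rw [e2] at h2
  rw [e3] at h3
  rw [e4] at h4
  exact ⟨h1, h2, h3, h4⟩

theorem exists_seq {C S : E →L[ℂ] E} (hC : IsUnit C) (hS : IsUnit S) (g0 : E) :
    ∃ g : ℤ → E, g 0 = g0 ∧ ∀ n, C (g (n + 1)) = S (g n) := by
  obtain ⟨u, rfl⟩ := hC
  obtain ⟨v, rfl⟩ := hS
  refine ⟨fun n => (((u⁻¹ * v) ^ n : (E →L[ℂ] E)ˣ) : E →L[ℂ] E) g0, ?_, ?_⟩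
  · simp only [zpow_zero, Units.val_one]
    rfl
  · intro n
    have h1 : u * (u⁻¹ * v) ^ (n + 1) = v * (u⁻¹ * v) ^ n := by
      rw [add_comm n 1, zpow_one_add, ← mul_assoc, mul_inv_cancel_left]
    have h2 := congrArg (fun w : (E →L[ℂ] E)ˣ => (w : E →L[ℂ] E) g0) h1
    simp only [Units.val_mul] at h2
    exact h2

/-! ### the real structure -/

theorem jj_c1 (hA : S_OPA) (hJ : S_OPJ) (r : ℝ) (f : E) :
    Z (jj (c1 (r : ℂ) f)) = s1 (r : ℂ) (jj f) := by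
  obtain ⟨hZ, -, -, -, -, -, hadd, hsmul, -⟩ := hJ
  have e1 : c1 (r : ℂ) f = f + (r : ℂ) • Z f := rfl
  have e2 : s1 (r : ℂ) (jj f) = Z (jj f) + (r : ℂ) • jj f := rfl
  have e3 : Z (Zi (jj f)) = jj f := by
    rw [← mulv, hA.1.1]; rfl
  rw [e1, e2, hadd, hsmul, hZ, map_add, map_smul, e3, Complex.conj_ofReal]

theorem jj_s1 (hA : S_OPA) (hJ : S_OPJ) (r : ℝ) (f : E) :
    Z (jj (s1 (r : ℂ) f)) = c1 (r : ℂ) (jj f) := by
  obtain ⟨hZ, -, -, -, -, -, hadd, hsmul, -⟩ := hJ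
  have e1 : s1 (r : ℂ) f = Z f + (r : ℂ) • f := rfl
  have e2 : c1 (r : ℂ) (jj f) = jj f + (r : ℂ) • Z (jj f) := rfl
  have e3 : Z (Zi (jj f)) = jj f := by
    rw [← mulv, hA.1.1]; rfl
  rw [e1, e2, hadd, hsmul, hZ, map_add, map_smul, e3, Complex.conj_ofReal]

theorem jj_c2 (hA : S_OPA) (hJ : S_OPJ) (r : ℝ) (f : E) :
    Z2 (jj (c2 (r : ℂ) f)) = s2 (r : ℂ) (jj f) := by
  obtain ⟨-, hZ, -, -, -, -, hadd, hsmul, -⟩ := hJ
  have e1 : c2 (r : ℂ) f = f + (r : ℂ) • Z2 f := rfl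
  have e2 : s2 (r : ℂ) (jj f) = Z2 (jj f) + (r : ℂ) • jj f := rfl
  have e3 : Z2 (Zs (jj f)) = jj f := by
    rw [← mulv, hA.1.2.2.1]; rfl
  rw [e1, e2, hadd, hsmul, hZ, map_add, map_smul, e3, Complex.conj_ofReal]

theorem jj_s2 (hA : S_OPA) (hJ : S_OPJ) (r : ℝ) (f : E) :
    Z2 (jj (s2 (r : ℂ) f)) = c2 (r : ℂ) (jj f) := by
  obtain ⟨-, hZ, -, -, -, -, hadd, hsmul, -⟩ := hJ
  have e1 : s2 (r : ℂ) f = Z2 f + (r : ℂ) • f := rfl
  have e2 : c2 (r : ℂ) (jj f) = jj f + (r : ℂ) • Z2 (jj f) := rfl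
  have e3 : Z2 (Zs (jj f)) = jj f := by
    rw [← mulv, hA.1.2.2.1]; rfl
  rw [e1, e2, hadd, hsmul, hZ, map_add, map_smul, e3, Complex.conj_ofReal]

/-! ### the inner product -/

theorem inner_cs (hA : S_OPA) (r : ℝ) (u w : E) :
    ⟪c1 (r : ℂ) u, c2 (r : ℂ) w⟫_ℂ = ⟪s1 (r : ℂ) u, s2 (r : ℂ) w⟫_ℂ := by
  have e1 : c1 (r : ℂ) u = u + (r : ℂ) • Z u := rfl
  have e2 : c2 (r : ℂ) w = w + (r : ℂ) • Z2 w := rfl
  have e3 : s1 (r : ℂ) u = Z u + (r : ℂ) • u := rfl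
  have e4 : s2 (r : ℂ) w = Z2 w + (r : ℂ) • w := rfl
  have e5 : ⟪Z u, Z2 w⟫_ℂ = ⟪u, w⟫_ℂ := by
    rw [← adjoint_inner_right, hA.2.1.1, ← mulv, hA.1.2.2.2]; rfl
  rw [e1, e2, e3, e4]
  simp only [inner_add_left, inner_add_right, inner_smul_left, inner_smul_right,
    Complex.conj_ofReal, e5]
  ring

/-! ### the sequence -/

/-- the ratios -/
noncomputable def bt (n : ℤ) : ℝ := (4 * (n : ℝ) + 1) / (4 * (n : ℝ) + 3)

theorem ne1 (n : ℤ) : (4 * (n : ℝ) + 1) ≠ 0 := by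
  have : ((4 * n + 1 : ℤ) : ℝ) ≠ 0 := by
    rw [Int.cast_ne_zero]; omega
  push_cast at this
  exact this

theorem ne3 (n : ℤ) : (4 * (n : ℝ) + 3) ≠ 0 := by
  have : ((4 * n + 3 : ℤ) : ℝ) ≠ 0 := by
    rw [Int.cast_ne_zero]; omega
  push_cast at this
  exact this

theorem bt_ne (n : ℤ) : bt n ≠ 0 := div_ne_zero (ne1 n) (ne3 n)

theorem bt_inj {n m : ℤ} (h : bt n = bt m) : n = m := by
  unfold bt at h
  rw [div_eq_div_iff (ne3 n) (ne3 m)] at h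
  have h1 : (n : ℝ) = m := by linarith
  exact_mod_cast h1

theorem bt_symm (n : ℤ) : bt (-n - 1) * bt n = 1 := by
  unfold bt
  have h1 := ne1 n
  have h3 := ne3 n
  have e1 : (4 * ((-n - 1 : ℤ) : ℝ) + 1) = -(4 * (n : ℝ) + 3) := by push_cast; ring
  have e2 : (4 * ((-n - 1 : ℤ) : ℝ) + 3) = -(4 * (n : ℝ) + 1) := by push_cast; ring
  rw [e1, e2, neg_div_neg_eq]
  field_simp

theorem om_bt (n : ℤ) : om n = bt n * om (n + 1) := by
  rw [om_succ]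
  unfold bt
  have h1 := ne1 n
  have h3 := ne3 n
  field_simp

/-- the forward relation for natural numbers -/
theorem fwd (hOM : S_OM) (hA : S_OPA) (hC : S_OPC) (r : ℝ) (hr0 : 0 ≤ r) (hr1 : r < 1)
    (uc1 : IsUnit (c1 (r : ℂ))) (h : E) (g : ℤ → E) (hg0 : g 0 = c1 (r : ℂ) h)
    (hg : ∀ n, c1 (r : ℂ) (g (n + 1)) = s1 (r : ℂ) (g n))
    (hbase : (1 - (r : ℂ) ^ 2) • Q h = (2 / 3 : ℂ) • c2 (r : ℂ) (s1 (r : ℂ) h)) (n : ℕ) :
    ∃ hn : E, c1 (r : ℂ) hn = g n ∧ s1 (r : ℂ) hn = g (n + 1) ∧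
      (1 - (r : ℂ) ^ 2) • Q hn = (2 / (4 * (n : ℂ) + 3)) • c2 (r : ℂ) (s1 (r : ℂ) hn) := by
  have hcomm : ∀ x : E, c1 (r : ℂ) (s1 (r : ℂ) x) = s1 (r : ℂ) (c1 (r : ℂ) x) := by
    intro x
    exact congrArg (fun T : E →L[ℂ] E => T x) (alg5 Z (r : ℂ))
  induction n with
  | zero =>
    refine ⟨h, ?_, ?_, ?_⟩
    · rw [← hg0]; simp
    · apply unit_inj uc1
      rw [hcomm, ← hg0]
      have := hg 0
      simpa using this.symm
    · rw [hbase]; norm_num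
  | succ n ih =>
    obtain ⟨hn, i1, i2, i3⟩ := ih
    obtain ⟨h', hh'⟩ := unit_surj uc1 (g ((n : ℤ) + 1))
    have j1 : c1 (r : ℂ) h' = s1 (r : ℂ) hn := by rw [hh', i2]
    have hz3 : (4 * (n : ℂ) + 3) ≠ 0 := by
      have : ((4 * n + 3 : ℕ) : ℂ) ≠ 0 := by rw [Nat.cast_ne_zero]; omega
      push_cast at this; exact this
    have hz7 : (4 * ((n : ℂ) + 1) + 3) ≠ 0 := by
      have : ((4 * (n + 1) + 3 : ℕ) : ℂ) ≠ 0 := by rw [Nat.cast_ne_zero]; omega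
      push_cast at this; exact this
    have hstep := step hA.2.2.2 (r : ℂ) (2 / (4 * (n : ℂ) + 3)) (2 / (4 * ((n : ℂ) + 1) + 3)) hn h'
      (div_ne_zero two_ne_zero hz3) (by field_simp; ring) i3 j1
    have hz := K_inj hOM hC r hr0 hr1 _ hstep
    refine ⟨h', ?_, ?_, ?_⟩
    · rw [hh']; push_cast; rfl
    · apply unit_inj uc1
      rw [hcomm, hh', ← hg]
      push_cast; rfl
    · push_cast
      exact sub_eq_zero.1 hz

theorem rel_nat (hOM : S_OM) (hA : S_OPA) (hC : S_OPC) (r : ℝ) (hr0 : 0 ≤ r) (hr1 : r < 1)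
    (uc1 : IsUnit (c1 (r : ℂ))) (h : E) (g : ℤ → E) (hg0 : g 0 = c1 (r : ℂ) h)
    (hg : ∀ n, c1 (r : ℂ) (g (n + 1)) = s1 (r : ℂ) (g n))
    (hbase : (1 - (r : ℂ) ^ 2) • Q h = (2 / 3 : ℂ) • c2 (r : ℂ) (s1 (r : ℂ) h)) (n : ℕ) :
    s2 (r : ℂ) (g n) = ((bt n : ℝ) : ℂ) • c2 (r : ℂ) (g (n + 1)) := by
  obtain ⟨hn, i1, i2, i3⟩ := fwd hOM hA hC r hr0 hr1 uc1 h g hg0 hg hbase n
  have h6 : c2 (r : ℂ) (s1 (r : ℂ) hn) - s2 (r : ℂ) (c1 (r : ℂ) hn) =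
      (1 - (r : ℂ) ^ 2) • Q hn := congrArg (fun T : E →L[ℂ] E => T hn) (alg6 Z Z2 (r : ℂ))
  rw [i3, i1, i2] at h6
  have h7 : s2 (r : ℂ) (g n) = c2 (r : ℂ) (g (n + 1)) -
      (2 / (4 * (n : ℂ) + 3)) • c2 (r : ℂ) (g (n + 1)) := by
    rw [← h6]; abel
  rw [h7]
  have hz3 : (4 * (n : ℂ) + 3) ≠ 0 := by
    have : ((4 * n + 3 : ℕ) : ℂ) ≠ 0 := by rw [Nat.cast_ne_zero]; omega
    push_cast at this; exact this
  have h8 : ((bt n : ℝ) : ℂ) = 1 - 2 / (4 * (n : ℂ) + 3) := by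
    unfold bt
    push_cast
    field_simp
    ring
  rw [h8, sub_smul, one_smul]

theorem jj_seq (hA : S_OPA) (hJ : S_OPJ) (r : ℝ) (uc1 : IsUnit (c1 (r : ℂ)))
    (us1 : IsUnit (s1 (r : ℂ))) (g : ℤ → E)
    (hg : ∀ n, c1 (r : ℂ) (g (n + 1)) = s1 (r : ℂ) (g n)) (h0 : jj (g 0) = g 0) (n : ℤ) :
    jj (g (-n)) = g n := by
  have hk : ∀ m : ℤ, c1 (r : ℂ) (jj (g (-(m + 1)))) = s1 (r : ℂ) (jj (g (-m))) := by
    intro m
    have h1 := hg (-(m + 1))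
    have e1 : -(m + 1) + 1 = -m := by ring
    rw [e1] at h1
    rw [← jj_s1 hA hJ, ← jj_c1 hA hJ, h1]
  induction n using Int.induction_on with
  | zero => simpa using h0
  | succ n ih =>
    apply unit_inj uc1
    rw [hk, ih, hg]
  | pred n ih =>
    apply unit_inj us1
    have h1 := hk (-(n : ℤ) - 1)
    have e1 : -(n : ℤ) - 1 + 1 = -(n : ℤ) := by ring
    rw [e1] at h1
    have h2 := hg (-(n : ℤ) - 1)
    rw [e1] at h2
    rw [← h1, ih, h2]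

theorem rel_all (hA : S_OPA) (hJ : S_OPJ) (r : ℝ) (g : ℤ → E)
    (hjj : ∀ n : ℤ, jj (g (-n)) = g n)
    (hnat : ∀ n : ℕ, s2 (r : ℂ) (g n) = ((bt n : ℝ) : ℂ) • c2 (r : ℂ) (g (n + 1))) (m : ℤ) :
    s2 (r : ℂ) (g m) = ((bt m : ℝ) : ℂ) • c2 (r : ℂ) (g (m + 1)) := by
  rcases m with n | n
  · exact hnat n
  · have h1 : Z2 (jj (s2 (r : ℂ) (g n))) =
        Z2 (jj (((bt n : ℝ) : ℂ) • c2 (r : ℂ) (g ((n : ℤ) + 1)))) := by rw [hnat n]
    rw [jj_s2 hA hJ] at h1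
    obtain ⟨-, -, -, -, -, -, -, hsmul, -⟩ := id hJ
    rw [hsmul, map_smul, jj_c2 hA hJ, Complex.conj_ofReal] at h1
    have e1 : jj (g (n : ℤ)) = g (-(n : ℤ)) := by
      have := hjj (-(n : ℤ))
      rwa [neg_neg] at this
    have e2 : jj (g ((n : ℤ) + 1)) = g (-(n : ℤ) - 1) := by
      have := hjj (-(n : ℤ) - 1)
      have e3 : -(-(n : ℤ) - 1) = (n : ℤ) + 1 := by ring
      rwa [e3] at this
    rw [e1, e2] at h1
    have e4 : Int.negSucc n = -(n : ℤ) - 1 := by rw [Int.negSucc_eq]; ring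
    have e5 : -(n : ℤ) - 1 + 1 = -(n : ℤ) := by ring
    rw [e4, e5, h1, smul_smul, ← Complex.ofReal_mul, bt_symm, Complex.ofReal_one, one_smul]

theorem inner_rec (hA : S_OPA) (r : ℝ) (uc1 : IsUnit (c1 (r : ℂ))) (uc2 : IsUnit (c2 (r : ℂ)))
    (g : ℤ → E) (hg : ∀ n, c1 (r : ℂ) (g (n + 1)) = s1 (r : ℂ) (g n))
    (hrel : ∀ m : ℤ, s2 (r : ℂ) (g m) = ((bt m : ℝ) : ℂ) • c2 (r : ℂ) (g (m + 1))) (n m : ℤ) :
    ⟪g n, g m⟫_ℂ = ((bt m : ℝ) : ℂ) * ⟪g (n + 1), g (m + 1)⟫_ℂ := by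
  obtain ⟨u, hu⟩ := unit_surj uc1 (g n)
  obtain ⟨w, hw⟩ := unit_surj uc2 (g m)
  have h1 : s1 (r : ℂ) u = g (n + 1) := by
    apply unit_inj uc1
    have h2 : c1 (r : ℂ) (s1 (r : ℂ) u) = s1 (r : ℂ) (c1 (r : ℂ) u) :=
      congrArg (fun T : E →L[ℂ] E => T u) (alg5 Z (r : ℂ))
    rw [h2, hu, hg]
  have h2 : s2 (r : ℂ) w = ((bt m : ℝ) : ℂ) • g (m + 1) := by
    apply unit_inj uc2
    have h3 : c2 (r : ℂ) (s2 (r : ℂ) w) = s2 (r : ℂ) (c2 (r : ℂ) w) :=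
      congrArg (fun T : E →L[ℂ] E => T w) (alg5 Z2 (r : ℂ))
    rw [h3, hw, hrel, map_smul]
  rw [← hu, ← hw, inner_cs hA, h1, h2, inner_smul_right]

theorem inner_zero (g : ℤ → E)
    (hin : ∀ n m : ℤ, ⟪g n, g m⟫_ℂ = ((bt m : ℝ) : ℂ) * ⟪g (n + 1), g (m + 1)⟫_ℂ) (n m : ℤ)
    (hnm : n ≠ m) : ⟪g n, g m⟫_ℂ = 0 := by
  have h1 := hin n m
  have h2 := hin m n
  have h3 : ⟪g n, g m⟫_ℂ = ((bt n : ℝ) : ℂ) * ⟪g (n + 1), g (m + 1)⟫_ℂ := by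
    have h4 := congrArg conj h2
    rw [inner_conj_symm, map_mul, inner_conj_symm, Complex.conj_ofReal] at h4
    exact h4
  have h5 : (((bt n : ℝ) : ℂ) - ((bt m : ℝ) : ℂ)) * ⟪g (n + 1), g (m + 1)⟫_ℂ = 0 := by
    rw [sub_mul, ← h1, ← h3, sub_self]
  have h6 : ((bt n : ℝ) : ℂ) - ((bt m : ℝ) : ℂ) ≠ 0 := by
    intro h
    have h7 : ((bt n : ℝ) : ℂ) = ((bt m : ℝ) : ℂ) := sub_eq_zero.1 h
    exact hnm (bt_inj (Complex.ofReal_injective h7))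
  rw [h1, (mul_eq_zero.1 h5).resolve_left h6, mul_zero]

theorem norm_seq (g : ℤ → E)
    (hin : ∀ n m : ℤ, ⟪g n, g m⟫_ℂ = ((bt m : ℝ) : ℂ) * ⟪g (n + 1), g (m + 1)⟫_ℂ) (n : ℤ) :
    ‖g n‖ ^ 2 = om n * ‖g 0‖ ^ 2 := by
  have h1 : ∀ m : ℤ, ‖g m‖ ^ 2 = bt m * ‖g (m + 1)‖ ^ 2 := by
    intro m
    have h2 := hin m m
    rw [inner_self_eq_norm_sq_to_K, inner_self_eq_norm_sq_to_K] at h2
    have h3 : ((‖g m‖ ^ 2 : ℝ) : ℂ) = ((bt m * ‖g (m + 1)‖ ^ 2 : ℝ) : ℂ) := by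
      push_cast
      exact h2
    exact Complex.ofReal_injective h3
  induction n using Int.induction_on with
  | zero => rw [om_zero, one_mul]
  | succ n ih =>
    have h2 := h1 n
    rw [ih, om_bt, mul_assoc] at h2
    exact (mul_left_cancel₀ (bt_ne _) h2).symm
  | pred n ih =>
    have h2 := h1 (-(n : ℤ) - 1)
    have h3 := om_bt (-(n : ℤ) - 1)
    have e1 : -(n : ℤ) - 1 + 1 = -(n : ℤ) := by ring
    rw [e1] at h2 h3
    rw [h2, ih, h3]; ring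

theorem exists_V (g : ℤ → E) (h0 : ∀ n m : ℤ, n ≠ m → ⟪g n, g m⟫_ℂ = 0)
    (hn : ∀ n : ℤ, ‖g n‖ ^ 2 = om n * ‖g 0‖ ^ 2) (hg0 : g 0 ≠ 0) :
    ∃ V : E →L[ℂ] E, (∀ n, V (eb n) = g n) ∧ ∀ f, ‖V f‖ = ‖g 0‖ * ‖f‖ := by
  have hpos : 0 < ‖g 0‖ := norm_pos_iff.2 hg0
  have hs : ∀ n, 0 < Real.sqrt (om n) := fun n => Real.sqrt_pos.2 (om_pos n)
  have hn' : ∀ n : ℤ, ‖g n‖ = Real.sqrt (om n) * ‖g 0‖ := by
    intro n
    have h1 : ‖g n‖ ^ 2 = (Real.sqrt (om n) * ‖g 0‖) ^ 2 := by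
      rw [hn, mul_pow, Real.sq_sqrt (om_pos n).le]
    exact (pow_left_inj₀ (norm_nonneg _) (mul_nonneg (hs n).le hpos.le) two_ne_zero).1 h1
  set v : ℤ → E := fun n => (((Real.sqrt (om n) * ‖g 0‖)⁻¹ : ℝ) : ℂ) • g n with hv
  have hort : Orthonormal ℂ v := by
    constructor
    · intro n
      rw [hv]
      simp only
      rw [norm_smul, Complex.norm_real, Real.norm_of_nonneg (by have := hs n; positivity), hn' n]
      have := hs n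
      field_simp
    · intro n m hnm
      rw [hv]
      simp only
      rw [inner_smul_left, inner_smul_right, h0 n m hnm, mul_zero, mul_zero]
  refine ⟨(‖g 0‖ : ℂ) • hort.orthogonalFamily.linearIsometry.toContinuousLinearMap, ?_, ?_⟩
  · intro n
    have h1 : hort.orthogonalFamily.linearIsometry (eb n) = ((Real.sqrt (om n) : ℝ) : ℂ) • v n := by
      unfold eb
      rw [OrthogonalFamily.linearIsometry_apply_single]
      rfl
    have h2 : ((‖g 0‖ : ℂ) • hort.orthogonalFamily.linearIsometry.toContinuousLinearMap) (eb n) =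
        (‖g 0‖ : ℂ) • (hort.orthogonalFamily.linearIsometry (eb n)) := rfl
    rw [h2, h1, hv]
    simp only
    rw [smul_smul, smul_smul, ← Complex.ofReal_mul, ← Complex.ofReal_mul]
    have h3 : ‖g 0‖ * Real.sqrt (om n) * (Real.sqrt (om n) * ‖g 0‖)⁻¹ = 1 := by
      have := hs n
      field_simp
    rw [h3, Complex.ofReal_one, one_smul]
  · intro f
    have h2 : ((‖g 0‖ : ℂ) • hort.orthogonalFamily.linearIsometry.toContinuousLinearMap) f =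
        (‖g 0‖ : ℂ) • (hort.orthogonalFamily.linearIsometry f) := rfl
    rw [h2, norm_smul, LinearIsometry.norm_map, Complex.norm_real, norm_norm]

theorem rec_main (hOM : S_OM) (hA : S_OPA) (hC : S_OPC) (hJ : S_OPJ) (hINV : S_INV) : S_REC := by
  intro r h hr0 hr1 hbase hjj
  obtain ⟨uc1, uc2, us1, us2⟩ := units4 hINV r hr0 hr1
  have hg' : h + (r : ℂ) • Z h = c1 (r : ℂ) h := rfl
  rw [hg'] at hjj ⊢
  have hbase' : (1 - (r : ℂ) ^ 2) • Q h = (2 / 3 : ℂ) • c2 (r : ℂ) (s1 (r : ℂ) h) := by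
    have h1 : ((1 - r ^ 2 : ℝ) : ℂ) = 1 - (r : ℂ) ^ 2 := by push_cast; rfl
    rw [h1] at hbase
    exact hbase
  by_cases hz : c1 (r : ℂ) h = 0
  · refine ⟨0, ?_, ?_, ?_, ?_⟩
    · rw [hz]; rfl
    · simp
    · simp
    · intro f
      rw [hz]; simp
  obtain ⟨g, hg0, hg⟩ := exists_seq uc1 us1 (c1 (r : ℂ) h)
  have hnat := rel_nat hOM hA hC r hr0 hr1 uc1 h g hg0 hg hbase'
  have hjjg := jj_seq hA hJ r uc1 us1 g hg (by rw [hg0]; exact hjj)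
  have hrel := rel_all hA hJ r g hjjg hnat
  have hin := inner_rec hA r uc1 uc2 g hg hrel
  obtain ⟨V, hV, hVn⟩ := exists_V g (inner_zero g hin) (norm_seq g hin) (by rw [hg0]; exact hz)
  obtain ⟨-, -, -, -, -, -, -, -, -, -, -, -, -, hop, -⟩ := id hC
  refine ⟨V, ?_, ?_, ?_, ?_⟩
  · rw [hV, hg0]
  · apply hop
    intro n
    have e1 : ((1 + (r : ℂ) • Z) * V * Z) (eb n) = c1 (r : ℂ) (V (Z (eb n))) := rfl
    have e2 : ((Z + (r : ℂ) • (1 : E →L[ℂ] E)) * V) (eb n) = s1 (r : ℂ) (V (eb n)) := rfl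
    rw [e1, e2, hA.2.2.1.1, hV, hV, hg]
  · apply hop
    intro n
    have e1 : ((1 + (r : ℂ) • Z2) * V * Z2) (eb n) = c2 (r : ℂ) (V (Z2 (eb n))) := rfl
    have e2 : ((Z2 + (r : ℂ) • (1 : E →L[ℂ] E)) * V) (eb n) = s2 (r : ℂ) (V (eb n)) := rfl
    rw [e1, e2, hA.2.2.1.2.2.1, map_smul, map_smul, hV, hV, hrel]
    congr 1
    unfold bt
    push_cast
    rfl
  · intro f
    rw [hVn, hg0]

end Pool.Agent.W196.WHREC
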